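import Pool.Agent.L7h6.GB.Flex

set_option autoImplicit false

/-! Walks in symmetric graphs and correctly nested words: blocks of digits can be exchanged. -/

namespace Pool.Agent.L7h6.GB
open Finset
open Pool.Agent.N625.DY (word word_add word_succ)
open Pool.Agent.N625.GW (go go_append go_none go_cons walks onO onO_none onO_some Graph T T_apply T_pow Rho walks_le walks_symm rho_two back)
open Pool.Agent.N625.PT (Flex)

/-- the multiples of the neighbours -/
lemma conv_mult (c κ : ℤ) (k J W : ℕ) (P : ℕ → Prop) (v : ℕ)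
    (hv : ¬ ∀ q : ℕ, 1 ≤ q → |(q : ℤ) - (c + κ * v)| ≤ (k : ℤ) ^ W → ∀ h : ℕ, 1 ≤ h → h ≤ k ^ J → Even (h * q) → P (h * q)) :
    ∃ h : ℕ, 1 ≤ h ∧ h ≤ k ^ J ∧ ∃ s : ℤ, |s| ≤ (k : ℤ) ^ W ∧
      0 < (h : ℤ) * (c + s + κ * v) ∧ 2 ∣ (h : ℤ) * (c + s + κ * v) ∧ ¬ P ((h : ℤ) * (c + s + κ * v)).toNat := by
  push Not at hv
  obtain ⟨q, hq1, hq2, h, hh1, hh2, hev, hbad⟩ := hv
  refine ⟨h, hh1, hh2, (q : ℤ) - (c + κ * v), hq2, ?_⟩
  have e : (h : ℤ) * (c + ((q : ℤ) - (c + κ * v)) + κ * v) = ((h * q : ℕ) : ℤ) := by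
    push_cast
    ring
  rw [e]
  refine ⟨by exact_mod_cast Nat.mul_pos hh1 hq1, by exact_mod_cast hev.two_dvd, ?_⟩
  rw [Int.toNat_natCast]
  exact hbad

section walks

variable {X : Type} {b : ℕ} {δ : X → ℕ → Option X}

/-- the number of the walks of the length `n` from `z` to `y` -/
noncomputable def nw (b : ℕ) (δ : X → ℕ → Option X) (y : X) (n : ℕ) (z : X) : ℝ := ((walks b δ n z y).card : ℝ)

lemma nw_succ (hG : Graph b δ) (y : X) (n : ℕ) (z : X) : nw b δ y (n + 1) z = ∑ a ∈ range b, onO (nw b δ y n) (δ z a) := by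
  classical
  unfold nw
  rw [← T_pow hG, pow_succ', Module.End.mul_apply, T_apply hG]
  apply sum_congr rfl
  intro a _
  cases δ z a with
  | none => rfl
  | some z' =>
    rw [onO_some, onO_some, T_pow hG]

lemma nw_nonneg (y : X) (n : ℕ) (z : X) : 0 ≤ nw b δ y n z := Nat.cast_nonneg _

/-- the potential of the walks to `y` -/
noncomputable def gw (b : ℕ) (δ : X → ℕ → Option X) (y : X) (ρ : ℝ) (n : ℕ) (z : X) : ℝ :=
  ∑' m : ℕ, (1 / (2 * ρ ^ 2)) ^ m * nw b δ y (n + 2 * m) z

variable {y : X} {ρ : ℝ}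

lemma gw_term (hρ : 0 < ρ) (hw : ∀ n z, nw b δ y n z ≤ ρ ^ n) (n m : ℕ) (z : X) :
    (1 / (2 * ρ ^ 2)) ^ m * nw b δ y (n + 2 * m) z ≤ ρ ^ n * (1 / 2) ^ m := by
  have h1 : (1 / (2 * ρ ^ 2)) ^ m * nw b δ y (n + 2 * m) z ≤ (1 / (2 * ρ ^ 2)) ^ m * ρ ^ (n + 2 * m) :=
    mul_le_mul_of_nonneg_left (hw _ _) (by positivity)
  refine h1.trans (le_of_eq ?_)
  rw [pow_add, pow_mul, one_div_pow, mul_pow, one_div_pow]
  have : (ρ ^ 2) ^ m ≠ 0 := by positivity
  field_simp

lemma gw_summable (hρ : 0 < ρ) (hw : ∀ n z, nw b δ y n z ≤ ρ ^ n) (n : ℕ) (z : X) :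
    Summable fun m : ℕ => (1 / (2 * ρ ^ 2)) ^ m * nw b δ y (n + 2 * m) z := by
  refine Summable.of_nonneg_of_le (fun m => mul_nonneg (by positivity) (nw_nonneg _ _ _)) (fun m => gw_term hρ hw n m z) ?_
  exact (summable_geometric_of_lt_one (by norm_num) (by norm_num)).mul_left _

lemma gw_nonneg (hρ : 0 < ρ) (n : ℕ) (z : X) : 0 ≤ gw b δ y ρ n z :=
  tsum_nonneg fun m => mul_nonneg (by positivity) (nw_nonneg _ _ _)

lemma gw_harm (hG : Graph b δ) (hρ : 0 < ρ) (hw : ∀ n z, nw b δ y n z ≤ ρ ^ n) (n : ℕ) (z : X) :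
    ∑ a ∈ range b, onO (gw b δ y ρ n) (δ z a) = gw b δ y ρ (n + 1) z := by
  have h1 : ∀ a ∈ range b, onO (gw b δ y ρ n) (δ z a) =
      ∑' m : ℕ, (1 / (2 * ρ ^ 2)) ^ m * onO (nw b δ y (n + 2 * m)) (δ z a) := by
    intro a _
    cases δ z a with
    | none => simp [onO_none]
    | some z' => rfl
  rw [sum_congr rfl h1, ← Summable.tsum_finsetSum]
  · unfold gw
    apply tsum_congr
    intro m
    rw [show n + 1 + 2 * m = (n + 2 * m) + 1 by ring, nw_succ hG, mul_sum]
  · intro a _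
    cases δ z a with
    | none => simp [onO_none]
    | some z' => exact gw_summable hρ hw n z'

lemma gw_shift (hρ : 0 < ρ) (hw : ∀ n z, nw b δ y n z ≤ ρ ^ n) (n : ℕ) (z : X) :
    1 / (2 * ρ ^ 2) * gw b δ y ρ (n + 2) z ≤ gw b δ y ρ n z := by
  have h1 := (gw_summable hρ hw n z).tsum_eq_zero_add
  have h2 : gw b δ y ρ n z = (1 / (2 * ρ ^ 2)) ^ 0 * nw b δ y (n + 2 * 0) z +
      ∑' m : ℕ, (1 / (2 * ρ ^ 2)) ^ (m + 1) * nw b δ y (n + 2 * (m + 1)) z := h1
  have h3 : 1 / (2 * ρ ^ 2) * gw b δ y ρ (n + 2) z =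
      ∑' m : ℕ, (1 / (2 * ρ ^ 2)) ^ (m + 1) * nw b δ y (n + 2 * (m + 1)) z := by
    unfold gw
    rw [← tsum_mul_left]
    apply tsum_congr
    intro m
    rw [show n + 2 + 2 * m = n + 2 * (m + 1) by ring, pow_succ]
    ring
  rw [h2, h3]
  have := nw_nonneg (b := b) (δ := δ) y (n + 2 * 0) z
  rw [pow_zero, one_mul]
  linarith

lemma gw_le (hρ : 0 < ρ) (hw : ∀ n z, nw b δ y n z ≤ ρ ^ n) (n : ℕ) (z : X) : gw b δ y ρ n z ≤ 2 * ρ ^ n := by
  have h1 : gw b δ y ρ n z ≤ ∑' m : ℕ, ρ ^ n * (1 / 2 : ℝ) ^ m :=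
    (gw_summable hρ hw n z).tsum_le_tsum (fun m => gw_term hρ hw n m z)
      ((summable_geometric_of_lt_one (by norm_num) (by norm_num)).mul_left _)
  rw [tsum_mul_left, tsum_geometric_two] at h1
  linarith

lemma gw_one (hρ : 0 < ρ) (hw : ∀ n z, nw b δ y n z ≤ ρ ^ n) : 1 ≤ gw b δ y ρ 0 y := by
  classical
  have h1 := (gw_summable hρ hw 0 y).le_tsum 0 (fun m _ => mul_nonneg (by positivity) (nw_nonneg _ _ _))
  have h2 : (1 / (2 * ρ ^ 2)) ^ 0 * nw b δ y (0 + 2 * 0) y = 1 := by
    rw [pow_zero, one_mul]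
    unfold nw
    have : walks b δ (0 + 2 * 0) y y = {0} := by
      ext v
      rw [mem_walks, mem_singleton]
      constructor
      · intro h
        have := h.1
        simpa using this
      · rintro rfl
        exact ⟨by simp, rfl⟩
    rw [this, card_singleton, Nat.cast_one]
  unfold gw
  rw [h2] at h1
  exact h1

/-- walks: blocks of two digits can be exchanged -/
theorem walk_flex (hG : Graph b δ) (x : X) (ρ : ℝ) (hρ : 0 < ρ) (hR : Rho b δ x ρ) (D k : ℕ) (hk : 2 ≤ k) (y : X)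
    (hy : ρ ^ k ≤ (k : ℝ) ^ D * (walks b δ k x y).card) :
    Flex b 2 (1 / (2 * ρ ^ 2)) (D + 1) k (pr b δ k x y) := by
  classical
  have hb := Pool.Agent.N625.GW.two_le hG x
  have hcard : 0 < (walks b δ k x y).card := Pool.Agent.N625.GW.card_pos' hρ hy
  have hw : ∀ n z, nw b δ y n z ≤ ρ ^ n := fun n z => walks_le hG hρ hR k hcard n z
  have hρ2 := rho_two hG hR
  refine flex_auto b 2 hb (by norm_num) δ (1 / (2 * ρ ^ 2)) (by positivity) ?_ (D + 1) k x y (gw b δ y ρ)
    (fun n z => gw_nonneg hρ n z) (fun n z => (gw_harm hG hρ hw n z).le) (gw_one hρ hw) hcard ?_ ?_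
  · rw [div_le_one (by positivity)]
    linarith
  · refine (gw_le hρ hw k x).trans ?_
    have hk2 : (2 : ℝ) ≤ k := by exact_mod_cast hk
    calc 2 * ρ ^ k ≤ 2 * ((k : ℝ) ^ D * (walks b δ k x y).card) := by linarith
      _ ≤ k * ((k : ℝ) ^ D * (walks b δ k x y).card) := mul_le_mul_of_nonneg_right hk2 (by positivity)
      _ = (k : ℝ) ^ (D + 1) * (walks b δ k x y).card := by rw [pow_succ]; ring
  · intro z
    obtain ⟨a, a', haa, ha', h1, h2⟩ := hG.two z
    obtain ⟨z1, hz1⟩ := Option.isSome_iff_exists.1 h1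
    obtain ⟨z2, hz2⟩ := Option.isSome_iff_exists.1 h2
    obtain ⟨c, hc, hc'⟩ := back hG (by omega) hz1
    obtain ⟨d, hd, hd'⟩ := back hG ha' hz2
    have hword : ∀ p q : ℕ, p < b → q < b → word b 2 (p * b + q) = [p, q] := by
      intro p q hp hq
      have h := word_succ (b := b) 1 p q hp (by simpa using hq)
      rw [pow_one, word_one q hq] at h
      exact h
    refine ⟨a * b + c, a' * b + d, z, ?_, ?_, ?_, ?_, fun n => gw_shift hρ hw n z⟩
    · calc a * b + c < a * b + b := by omega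
        _ = (a + 1) * b := by ring
        _ ≤ a' * b := Nat.mul_le_mul_right _ haa
        _ ≤ a' * b + d := Nat.le_add_right _ _
    · calc a' * b + d < a' * b + b := by omega
        _ = (a' + 1) * b := by ring
        _ ≤ b * b := Nat.mul_le_mul_right _ ha'
        _ = b ^ 2 := by ring
    · rw [hword a c (by omega) hc, go_cons, hz1, go_cons, hc']
      rfl
    · rw [hword a' d ha' hd, go_cons, hz2, go_cons, hd']
      rfl

open Classical in
/-- from probabilities to numbers -/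
lemma pr_count (k : ℕ) (x y : X) (hpos : 0 < (walks b δ k x y).card) (Q : ℕ → Prop) (z : ℝ)
    (h : ∑ v ∈ range (b ^ k), (if Q v then 0 else pr b δ k x y v) ≤ z) :
    (((walks b δ k x y).filter fun v => ¬ Q v).card : ℝ) ≤ (walks b δ k x y).card * z := by
  have hpos' : (0 : ℝ) < (walks b δ k x y).card := by exact_mod_cast hpos
  have h2 : ∑ v ∈ range (b ^ k), (if Q v then 0 else pr b δ k x y v) =
      (((walks b δ k x y).filter fun v => ¬ Q v).card : ℝ) / (walks b δ k x y).card := by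
    have e1 : ∀ v ∈ range (b ^ k), (if Q v then 0 else pr b δ k x y v) =
        if v ∈ walks b δ k x y then (if ¬ Q v then 1 / ((walks b δ k x y).card : ℝ) else 0) else 0 := by
      intro v _
      unfold pr
      split_ifs <;> rfl
    rw [sum_congr rfl e1, Pool.Agent.N625.GW.w_sum, ← sum_filter, sum_const, nsmul_eq_mul, mul_one_div]
  rw [h2, div_le_iff₀ hpos', mul_comm] at h
  exact h

end walks

section nested

open Pool.Agent.N625.DY (Alphabet Balanced step hh beta brackets run acc acc_append acc_iff Nn_big Nn_acc sup1' hh_nonneg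
  beta_ge step_open step_close card_pos_of)

variable {b : ℕ} {P : Finset (ℕ × ℕ)} {E : Finset ℕ}

lemma run_eq (w : List ℕ) : ∀ s, run P E s w = go (step P E) s w := by
  induction w with
  | nil => intro s; rfl
  | cons a w ih => intro s; rw [run, ih]; rfl

lemma brackets_eq (hA : Alphabet b P E) (k : ℕ) : brackets b P E k = walks b (step P E) k [] [] := by
  classical
  ext v
  rw [mem_walks]
  unfold brackets
  rw [mem_filter, mem_range, ← acc_iff hA]
  have h := acc_append (P := P) (E := E) (word b k v) [] []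
  rw [List.append_nil] at h
  rw [h, ← run_eq]
  constructor
  · rintro ⟨h1, s', h2, h3⟩
    rw [acc] at h3
    rw [h3] at h2
    exact ⟨h1, h2⟩
  · rintro ⟨h1, h2⟩
    exact ⟨h1, [], h2, by rw [acc]⟩

lemma onO_eq (f : List ℕ → ℝ) (s : Option (List ℕ)) : Pool.Agent.N625.DY.onO f s = onO f s := by
  cases s <;> rfl

/-- correctly nested words: blocks of four digits can be exchanged -/
theorem nested_flex (hA : Alphabet b P E) : ∃ (T k₀ : ℕ), ∀ k : ℕ, k₀ ≤ k → (Even k ∨ E.Nonempty) →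
    Flex b 4 (1 / beta P E ^ 4) T k (pr b (step P E) k [] []) := by
  classical
  have hb2 := beta_ge hA
  have hb0 : 0 < beta P E := by linarith
  have hb : 2 ≤ b := Pool.Agent.N625.DY.two_le hA
  obtain ⟨M, hM⟩ := exists_nat_ge (2 * beta P E)
  refine ⟨5, M + 2, fun k hk hke => ?_⟩
  have hcard : 0 < (walks b (step P E) k [] []).card := by
    rw [← brackets_eq hA]
    exact card_pos_of hA k hke
  have hN : Pool.Agent.N625.DY.Nn b P E k [] = ((walks b (step P E) k [] []).card : ℝ) := by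
    rw [← Nn_acc, ← brackets_eq hA]
    congr 2
    unfold brackets
    apply filter_congr
    intro v _
    exact acc_iff hA _
  refine flex_auto b 4 hb (by norm_num) (step P E) (1 / beta P E ^ 4) (by positivity) ?_ 5 k [] []
    (fun n s => beta P E ^ n * hh P s) (fun n s => mul_nonneg (by positivity) (hh_nonneg P s)) ?_ ?_ hcard ?_ ?_
  · rw [div_le_one (by positivity)]
    exact one_le_pow₀ (by linarith)
  · intro n s
    have h1 := sup1' hA s
    have h2 : ∀ a ∈ range b, onO (fun s => beta P E ^ n * hh P s) (step P E s a) =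
        beta P E ^ n * Pool.Agent.N625.DY.onO (hh P) (step P E s a) := by
      intro a _
      cases step P E s a with
      | none => simp [onO, Pool.Agent.N625.DY.onO]
      | some s' => rfl
    rw [sum_congr rfl h2, ← mul_sum, pow_succ, mul_assoc]
    exact mul_le_mul_of_nonneg_left h1 (by positivity)
  · simp [hh]
  · have h1 := Nn_big hA k hke
    rw [hN] at h1
    have h3 : hh P [] = 1 := rfl
    rw [h3, mul_one]
    refine h1.trans (mul_le_mul_of_nonneg_right ?_ (Nat.cast_nonneg _))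
    have hkM : (2 * beta P E) ≤ k := hM.trans (by exact_mod_cast (by omega : M ≤ k))
    have hk2 : (2 : ℝ) ≤ k := by exact_mod_cast (by omega : 2 ≤ k)
    have h4 : ((k : ℝ) + 1) ^ 2 ≤ (k : ℝ) ^ 4 := by
      have : (k : ℝ) + 1 ≤ (k : ℝ) ^ 2 := by nlinarith
      calc ((k : ℝ) + 1) ^ 2 ≤ ((k : ℝ) ^ 2) ^ 2 := pow_le_pow_left₀ (by linarith) this 2
        _ = (k : ℝ) ^ 4 := by ring
    calc 2 * beta P E * ((k : ℝ) + 1) ^ 2 ≤ k * (k : ℝ) ^ 4 :=
          mul_le_mul hkM h4 (by positivity) (by linarith)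
      _ = (k : ℝ) ^ 5 := by ring
  · intro s
    obtain ⟨⟨o, c⟩, hp⟩ := hA.nonempty
    have hlt := hA.lt _ hp
    have hne : o ≠ c := hA.ne _ hp _ hp
    have hword : ∀ p q r t : ℕ, p < b → q < b → r < b → t < b →
        word b 4 (p * b ^ 3 + (q * b ^ 2 + (r * b + t))) = [p, q, r, t] := by
      intro p q r t h1 h2 h3 h4
      have e1 : r * b + t < b ^ 2 := by
        calc r * b + t < r * b + b := by omega
          _ = (r + 1) * b := by ring
          _ ≤ b * b := Nat.mul_le_mul_right _ h3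
          _ = b ^ 2 := by ring
      have e2 : q * b ^ 2 + (r * b + t) < b ^ 3 := by
        calc q * b ^ 2 + (r * b + t) < q * b ^ 2 + b ^ 2 := by omega
          _ = (q + 1) * b ^ 2 := by ring
          _ ≤ b * b ^ 2 := Nat.mul_le_mul_right _ h2
          _ = b ^ 3 := by ring
      rw [word_succ 3 p _ h1 e2, word_succ 2 q _ h2 e1]
      have h5 := word_succ (b := b) 1 r t h3 (by simpa using h4)
      rw [pow_one, word_one t h4] at h5
      rw [h5]
    have ho := step_open (E := E) hp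
    have hc := fun s => step_close hA hp s
    have g1 : go (step P E) (some s) [o, c, o, c] = some s := by
      rw [go_cons, ho, go_cons, hc, go_cons, ho, go_cons, hc]
      rfl
    have g2 : go (step P E) (some s) [o, o, c, c] = some s := by
      rw [go_cons, ho, go_cons, ho, go_cons, hc, go_cons, hc]
      rfl
    have hlt4 : ∀ q r : ℕ, q < b → r < b → o * b ^ 3 + (q * b ^ 2 + (r * b + c)) < b ^ 4 := by
      intro q r h2 h3
      have e1 : r * b + c < b ^ 2 := by
        calc r * b + c < r * b + b := by omega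
          _ = (r + 1) * b := by ring
          _ ≤ b * b := Nat.mul_le_mul_right _ h3
          _ = b ^ 2 := by ring
      have e2 : q * b ^ 2 + (r * b + c) < b ^ 3 := by
        calc q * b ^ 2 + (r * b + c) < q * b ^ 2 + b ^ 2 := by omega
          _ = (q + 1) * b ^ 2 := by ring
          _ ≤ b * b ^ 2 := Nat.mul_le_mul_right _ h2
          _ = b ^ 3 := by ring
      calc o * b ^ 3 + (q * b ^ 2 + (r * b + c)) < o * b ^ 3 + b ^ 3 := by omega
        _ = (o + 1) * b ^ 3 := by ring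
        _ ≤ b * b ^ 3 := Nat.mul_le_mul_right _ hlt.1
        _ = b ^ 4 := by ring
    have hpot : ∀ n, 1 / beta P E ^ 4 * (beta P E ^ (n + 4) * hh P s) ≤ beta P E ^ n * hh P s := by
      intro n
      apply le_of_eq
      rw [pow_add]
      field_simp
    have w1 := hword o c o c hlt.1 hlt.2 hlt.1 hlt.2
    have w2 := hword o o c c hlt.1 hlt.1 hlt.2 hlt.2
    rcases Nat.lt_or_gt_of_ne hne with h | h
    · -- `o < c`: the word `o o c c` is smaller
      refine ⟨_, _, s, ?_, hlt4 c o hlt.2 hlt.1, by rw [w2]; exact g2, by rw [w1]; exact g1, hpot⟩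
      have e3 : c * b + c < b ^ 2 := by
        calc c * b + c < c * b + b := by omega
          _ = (c + 1) * b := by ring
          _ ≤ b * b := Nat.mul_le_mul_right _ hlt.2
          _ = b ^ 2 := by ring
      have e4 : (o + 1) * b ^ 2 ≤ c * b ^ 2 := Nat.mul_le_mul_right _ h
      have e5 : (o + 1) * b ^ 2 = o * b ^ 2 + b ^ 2 := by ring
      omega
    · refine ⟨_, _, s, ?_, hlt4 o c hlt.1 hlt.2, by rw [w1]; exact g1, by rw [w2]; exact g2, hpot⟩
      have e3 : o * b + c < b ^ 2 := by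
        calc o * b + c < o * b + b := by omega
          _ = (o + 1) * b := by ring
          _ ≤ b * b := Nat.mul_le_mul_right _ hlt.1
          _ = b ^ 2 := by ring
      have e4 : (c + 1) * b ^ 2 ≤ o * b ^ 2 := Nat.mul_le_mul_right _ h
      have e5 : (c + 1) * b ^ 2 = c * b ^ 2 + b ^ 2 := by ring
      omega

end nested

end Pool.Agent.L7h6.GB
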