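import Pool.Agent.N625.GW.D
import Pool.Agent.N625.PT.A

set_option autoImplicit false

/-! Words accepted by an infinite automaton with a potential: blocks of digits can be exchanged.  Walks in graphs and
correctly nested words are of this kind. -/

namespace Pool.Agent.L7h6.GB
open Finset
open Pool.Agent.N625.DY (word word_add word_succ)
open Pool.Agent.N625.GW (go go_append go_none walks onO onO_none onO_some)
open Pool.Agent.N625.PT (Flex)

variable {X : Type} {b : ℕ} {δ : X → ℕ → Option X}

open Classical in
/-- the uniform distribution on the integers whose `k` digits lead from `x` to `y` -/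
noncomputable def pr (b : ℕ) (δ : X → ℕ → Option X) (k : ℕ) (x y : X) (v : ℕ) : ℝ :=
  if v ∈ walks b δ k x y then 1 / ((walks b δ k x y).card : ℝ) else 0

lemma word_one (a : ℕ) (ha : a < b) : word b 1 a = [a] := by
  have h := word_succ (b := b) 0 a 0 ha (by simp)
  simp only [pow_zero, mul_one, add_zero, zero_add] at h
  rw [h]
  rfl

lemma word_nil (v : ℕ) : word b 0 v = [] := rfl

lemma mem_walks {k v : ℕ} {x y : X} : v ∈ walks b δ k x y ↔ v < b ^ k ∧ go δ (some x) (word b k v) = some y := by
  classical
  unfold walks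
  rw [mem_filter, mem_range]

/-- the potential of a beginning -/
noncomputable def pot (b : ℕ) (δ : X → ℕ → Option X) (k : ℕ) (x : X) (N : ℝ) (g : ℕ → X → ℝ) (i u : ℕ) : ℝ :=
  if i ≤ k then onO (g (k - i)) (go δ (some x) (word b i u)) / N else 0

lemma onO_nn (f : X → ℝ) (h : ∀ x, 0 ≤ f x) (s : Option X) : 0 ≤ onO f s := by
  cases s with
  | none => exact le_rfl
  | some x => exact h x

theorem flex_auto (b L : ℕ) (hb : 2 ≤ b) (hL : 1 ≤ L) (δ : X → ℕ → Option X) (η : ℝ) (hη0 : 0 < η) (hη1 : η ≤ 1)
    (T k : ℕ) (x y : X) (g : ℕ → X → ℝ) (g0 : ∀ n z, 0 ≤ g n z)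
    (g1 : ∀ n z, ∑ a ∈ range b, onO (g n) (δ z a) ≤ g (n + 1) z) (g2 : 1 ≤ g 0 y)
    (hcard : 0 < (walks b δ k x y).card) (g3 : g k x ≤ (k : ℝ) ^ T * (walks b δ k x y).card)
    (g4 : ∀ z, ∃ (a a' : ℕ) (z' : X), a < a' ∧ a' < b ^ L ∧ go δ (some z) (word b L a) = some z' ∧
      go δ (some z) (word b L a') = some z' ∧ ∀ n, η * g (n + L) z ≤ g n z') :
    Flex b L η T k (pr b δ k x y) := by
  classical
  obtain ⟨N, hN⟩ : ∃ N : ℝ, N = ((walks b δ k x y).card : ℝ) := ⟨_, rfl⟩
  have hN0 : 0 < N := by rw [hN]; exact_mod_cast hcard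
  have hpot : ∀ i u, 0 ≤ pot b δ k x N g i u := by
    intro i u
    unfold pot
    split_ifs
    · exact div_nonneg (onO_nn _ (g0 _) _) hN0.le
    · exact le_rfl
  have hsub : walks b δ k x y ⊆ range (b ^ k) := Pool.Agent.N625.GW.w_sub k x y
  have hbpos : 0 < b := by omega
  -- the digits of a composed word
  have hword : ∀ i u a w : ℕ, i + L ≤ k → u < b ^ i → a < b ^ L → w < b ^ (k - (i + L)) →
      word b k ((b ^ L * u + a) * b ^ (k - (i + L)) + w) =
        (word b i u ++ word b L a) ++ word b (k - (i + L)) w := by
    intro i u a w hi hu ha hw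
    have h1 : b ^ L * u + a < b ^ (i + L) := by
      rw [pow_add, mul_comm (b ^ i)]
      calc b ^ L * u + a < b ^ L * u + b ^ L := by omega
        _ = b ^ L * (u + 1) := by ring
        _ ≤ _ := Nat.mul_le_mul_left _ hu
    have h2 := word_add (b := b) (k - (i + L)) (i + L) (b ^ L * u + a) w hw h1
    rw [show i + L + (k - (i + L)) = k by omega] at h2
    rw [h2]
    congr 1
    have h3 := word_add (b := b) L i u a ha hu
    rw [mul_comm (b ^ L) u]
    exact h3
  refine ⟨fun v => ?_, ?_, pot b δ k x N g, hpot, ?_, ?_, ?_, ?_⟩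
  · unfold pr
    split_ifs
    · positivity
    · exact le_rfl
  · unfold pr
    rw [← sum_filter]
    have : (range (b ^ k)).filter (fun v => v ∈ walks b δ k x y) = walks b δ k x y := by
      ext v
      rw [mem_filter]
      exact ⟨fun h => h.2, fun h => ⟨hsub h, h⟩⟩
    rw [this, sum_const, nsmul_eq_mul, ← hN]
    field_simp
  · intro v hv
    unfold pr
    split_ifs with h
    · rw [mem_walks] at h
      unfold pot
      rw [if_pos le_rfl, h.2, onO_some, Nat.sub_self, ← hN]
      exact div_le_div_of_nonneg_right g2 hN0.le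
    · exact hpot k v
  · intro i hi u hu
    have hw : ∀ a ∈ range b, word b (i + 1) (b * u + a) = word b i u ++ [a] := by
      intro a ha
      rw [mem_range] at ha
      have h := word_add (b := b) 1 i u a (by simpa using ha) hu
      rw [pow_one, mul_comm u b, word_one a ha] at h
      exact h
    have h1 : ∀ a ∈ range b, pot b δ k x N g (i + 1) (b * u + a) =
        onO (g (k - (i + 1))) (go δ (go δ (some x) (word b i u)) [a]) / N := by
      intro a ha
      unfold pot
      rw [if_pos (by omega : i + 1 ≤ k), hw a ha, go_append]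
    rw [sum_congr rfl h1]
    unfold pot
    rw [if_pos hi.le, ← sum_div]
    apply div_le_div_of_nonneg_right _ hN0.le
    cases hs : go δ (some x) (word b i u) with
    | none =>
      simp only [go_none, onO_none, sum_const_zero, le_refl]
    | some z =>
      have h2 := g1 (k - (i + 1)) z
      rw [show k - (i + 1) + 1 = k - i by omega] at h2
      rw [onO_some]
      refine le_trans (le_of_eq ?_) h2
      apply sum_congr rfl
      intro a _
      rfl
  · unfold pot
    rw [if_pos (Nat.zero_le k), word_nil, Nat.sub_zero]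
    show onO (g k) (some x) / N ≤ _
    rw [onO_some, div_le_iff₀ hN0, hN]
    exact g3
  · intro i u hi hu
    cases hs : go δ (some x) (word b i u) with
    | none =>
      have hz : ∀ a w : ℕ, a < b ^ L → w < b ^ (k - (i + L)) →
          pr b δ k x y ((b ^ L * u + a) * b ^ (k - (i + L)) + w) = 0 := by
        intro a w ha hw
        unfold pr
        rw [if_neg]
        intro h
        rw [mem_walks, hword i u a w hi hu ha hw, go_append, go_append, hs, go_none, go_none] at h
        exact absurd h.2 (by simp)
      have hbL : 1 < b ^ L := Nat.one_lt_pow (by omega) (by omega)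
      have hzero : pot b δ k x N g i u = 0 := by
        unfold pot
        rw [hs, onO_none]
        simp
      refine ⟨0, 1, 1, one_pos, hbL, hη1, by rw [mul_one]; exact hη1, ?_, ?_, ?_⟩
      · intro w hw
        rw [hz 0 w (by omega) hw, hz 1 w hbL hw, mul_zero]
      · rw [hzero, mul_zero]
        exact hpot _ _
      · rw [hzero, mul_zero]
        exact hpot _ _
    | some z =>
      obtain ⟨a, a', z', haa, ha', h1, h2, h3⟩ := g4 z
      have hst : ∀ c : ℕ, c < b ^ L → go δ (some z) (word b L c) = some z' →
          η * pot b δ k x N g i u ≤ pot b δ k x N g (i + L) (b ^ L * u + c) := by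
        intro c hc hgo
        have hw := word_add (b := b) L i u c hc hu
        rw [mul_comm u] at hw
        unfold pot
        rw [if_pos (by omega : i ≤ k), if_pos hi, hw, go_append, hs, hgo, onO_some, onO_some, ← mul_div_assoc]
        apply div_le_div_of_nonneg_right _ hN0.le
        have := h3 (k - (i + L))
        rw [show k - (i + L) + L = k - i by omega] at this
        exact this
      refine ⟨a, a', 1, haa, ha', hη1, by rw [mul_one]; exact hη1, ?_, hst a (by omega) h1, hst a' ha' h2⟩
      intro w hw
      rw [one_mul]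
      unfold pr
      have e : ((b ^ L * u + a) * b ^ (k - (i + L)) + w ∈ walks b δ k x y) ↔
          ((b ^ L * u + a') * b ^ (k - (i + L)) + w ∈ walks b δ k x y) := by
        have hlt : ∀ c, c < b ^ L → (b ^ L * u + c) * b ^ (k - (i + L)) + w < b ^ k := by
          intro c hc
          have h1 : b ^ L * u + c + 1 ≤ b ^ (i + L) := by
            rw [pow_add, mul_comm (b ^ i)]
            calc b ^ L * u + c + 1 ≤ b ^ L * u + b ^ L := by omega
              _ = b ^ L * (u + 1) := by ring
              _ ≤ _ := Nat.mul_le_mul_left _ hu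
          calc (b ^ L * u + c) * b ^ (k - (i + L)) + w < (b ^ L * u + c) * b ^ (k - (i + L)) + b ^ (k - (i + L)) := by omega
            _ = (b ^ L * u + c + 1) * b ^ (k - (i + L)) := by ring
            _ ≤ b ^ (i + L) * b ^ (k - (i + L)) := Nat.mul_le_mul_right _ h1
            _ = b ^ k := by rw [← pow_add]; congr 1; omega
        rw [mem_walks, mem_walks, hword i u a w hi hu (by omega) hw, hword i u a' w hi hu ha' hw,
          go_append, go_append, go_append, go_append, hs, h1, h2]
        exact ⟨fun h => ⟨hlt a' ha', h.2⟩, fun h => ⟨hlt a (by omega), h.2⟩⟩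
      by_cases h : (b ^ L * u + a) * b ^ (k - (i + L)) + w ∈ walks b δ k x y
      · rw [if_pos h, if_pos (e.1 h)]
      · rw [if_neg h, if_neg (fun h' => h (e.2 h'))]

end Pool.Agent.L7h6.GB
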